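import Pool.Agent.helper81.SG.Inv
import Pool.Agent.helper81.SG.Diff
import Pool.Agent.helper81.SG.Bridge
import Pool.Agent.helper15.SG.WA
import Pool.Agent.helper58.SG.EG

/-!
# A metric with the geodesics of an indefinite metric of the 3-sphere is proportional to it

The definitions are in `Pool/Agent/helper81/SG/Defs.lean`.

Picard-Lindelöf gives a geodesic for all initial data, so comparing a geodesic of `g` with its
reparametrization one gets `(Γ' - Γ)(v, v) ∈ ℝ v` for all `v`, hence the Weyl form of `Γ' - Γ`; then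
the global theorem on the 3-sphere (`Bridge.lean`) applies.
-/

set_option autoImplicit false

namespace Pool.Agent.Results.MP_b2b189_gt.SameGeodesics

open Pool.Agent.helper81.SG
open Pool.Agent.helper68.B2 (chris)

theorem chris_symm (M : SphereMetric) (x : R3) (i j k : Fin 3) :
    chris M.g x i j k = chris M.g x i k j := by
  have h : (fun z => M.g z j k) = fun z => M.g z k j := by
    funext z
    exact (M.symm_g z).apply k j
  unfold chris
  congr 1
  refine Finset.sum_congr rfl fun l _ => ?_
  rw [h]
  ring

/-- If `M` is a pseudo-Riemannian metric of indefinite signature on the 3-sphere and `M'` is a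
pseudo-Riemannian metric, of any signature, on the 3-sphere such that every geodesic of `M` lying
in the sphere minus one pole is after a reparametrization a geodesic of `M'`, then `M'` is a
constant multiple of `M`. -/
theorem result (M M' : SphereMetric) (hM : M.Indefinite) (hgeo : GeodesicsOf M.g M'.g) :
    ∃ k : ℝ, k ≠ 0 ∧ (∀ x, M'.g x = k • M.g x) ∧ ∀ y, M'.h y = k • M.h y := by
  have hpar : ∀ (x v : R3), ∃ m : ℝ, ∀ i,
      ∑ j, ∑ k, (chris M'.g x i j k - chris M.g x i j k) * v j * v k = m * v i := by
    intro x v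
    obtain ⟨e, c, w, he, hc0, hw0, hcw⟩ :=
      Pool.Agent.helper58.SG.exists_geod M.g M.smooth_g M.nondegenerate_g x v
    obtain ⟨p, q, s, τ, τ', hs, hτs, hτ, u, hu⟩ := hgeo (-e) e c ⟨w, hcw⟩ 0 ⟨by linarith, he⟩
    obtain ⟨m, hm⟩ := diff_step (chris M.g) (chris M'.g) (-e) e p q s c w u τ τ' hcw hs hτ hu
    refine ⟨m, fun i => ?_⟩
    have := hm i
    rwa [hτs, hc0, hw0] at this
  have hweyl : ∃ φ : R3 → Fin 3 → ℝ, ∀ x i j k,
      chris M'.g x i j k = chris M.g x i j k + (if i = j then φ x k else 0)
        + (if i = k then φ x j else 0) := by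
    have h1 : ∀ x : R3, ∃ φ : Fin 3 → ℝ, ∀ i j k,
        chris M'.g x i j k - chris M.g x i j k =
          (if i = j then φ k else 0) + (if i = k then φ j else 0) := fun x =>
      Pool.Agent.helper15.SG.weyl_algebra
        (fun i j k => chris M'.g x i j k - chris M.g x i j k)
        (fun i j k => by rw [chris_symm M' x i j k, chris_symm M x i j k]) (hpar x)
    choose φ hφ using h1
    exact ⟨φ, fun x i j k => by linarith [hφ x i j k]⟩
  obtain ⟨k, hk⟩ := bridge2 M.g M'.g M.h M'.h M.smooth_g M'.smooth_g M.smooth_h M'.smooth_h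
    (fun x => ⟨M.symm_g x, M.nondegenerate_g x, hM.1 x⟩)
    (fun x => ⟨M'.symm_g x, M'.nondegenerate_g x⟩)
    (fun x => ⟨M.symm_h x, M.nondegenerate_h x⟩) (fun x => ⟨M'.symm_h x, M'.nondegenerate_h x⟩)
    (glue_of_transition M) (glue_of_transition M') hweyl
  refine ⟨k, ?_, hk, proportional_h M M' k hk⟩
  rintro rfl
  apply M'.nondegenerate_g 0
  rw [hk, zero_smul, Matrix.det_zero]

end Pool.Agent.Results.MP_b2b189_gt.SameGeodesics
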